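import Pool.Agent.Lib.MP_6bc78b_nt.MS.P3.Iface

/-! Project MS, Part III: ASM, the statement LVV from R1, R3, LIM, EV. -/

set_option autoImplicit false

open Complex Filter Topology ArithmeticFunction MeasureTheory

namespace Pool.Agent.Lib.MP_6bc78b_nt.MS.P3.H97

open Pool.Agent.Lib.MP_6bc78b_nt.MS Pool.Agent.Lib.MP_6bc78b_nt.MS.P3

lemma ln_re (u : ℝ) : (ln u).re = 2 := by
  unfold ln
  simp

lemma ln_im (u : ℝ) : (ln u).im = u := by
  unfold ln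
  simp

lemma norm_ln (u : ℝ) : ‖ln u‖ = Real.sqrt (4 + u ^ 2) := by
  rw [Complex.norm_eq_sqrt_sq_add_sq, ln_re, ln_im]
  norm_num

lemma two_le_norm_ln (u : ℝ) : 2 ≤ ‖ln u‖ := by
  have h := Complex.abs_re_le_norm (ln u)
  rw [ln_re] at h
  simpa using h

/-- The weight. -/
noncomputable def FF (th c1 c2 : ℝ) (u : ℝ) : ℂ := PH th c1 c2 (ln u) * Complex.exp (th * ln u)

lemma FF_bound (th c1 c2 : ℝ) (hth : 0 < th) : ∃ M : ℝ, 0 ≤ M ∧
    ∀ u : ℝ, ‖FF th c1 c2 u‖ * ‖ln u‖ ^ (1 / 4 : ℝ) ≤ M * (1 + ‖u‖ ^ 2) ^ (-(7 / 4 : ℝ) / 2) := by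
  refine ⟨(|c1| / th + 2 * |c2| / th ^ 2) * Real.exp (th * 2), by positivity, fun u => ?_⟩
  have hw := two_le_norm_ln u
  have hw0 : 0 < ‖ln u‖ := by linarith
  have h1 : ‖PH th c1 c2 (ln u)‖ ≤ (|c1| / th + 2 * |c2| / th ^ 2) / ‖ln u‖ ^ 2 := by
    unfold PH
    refine (norm_add_le _ _).trans ?_
    rw [norm_div, norm_div, norm_mul, norm_mul, norm_mul, norm_pow, norm_pow, norm_pow,
      Complex.norm_real, Complex.norm_real, Complex.norm_real, Real.norm_eq_abs, Real.norm_eq_abs,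
      Real.norm_eq_abs, abs_of_pos hth, Complex.norm_ofNat]
    have h2 : |c1| / (th * ‖ln u‖ ^ 2) = |c1| / th / ‖ln u‖ ^ 2 := by
      rw [div_div]
    have h3 : 2 * |c2| / (th ^ 2 * ‖ln u‖ ^ 3) ≤ 2 * |c2| / th ^ 2 / ‖ln u‖ ^ 2 := by
      rw [div_div]
      apply div_le_div_of_nonneg_left (by positivity) (by positivity)
      apply mul_le_mul_of_nonneg_left _ (by positivity)
      calc ‖ln u‖ ^ 2 = ‖ln u‖ ^ 2 * 1 := (mul_one _).symm
        _ ≤ ‖ln u‖ ^ 2 * ‖ln u‖ := mul_le_mul_of_nonneg_left (by linarith) (by positivity)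
        _ = ‖ln u‖ ^ 3 := by ring
    rw [h2, add_div]
    linarith
  have h2 : ‖Complex.exp (th * ln u)‖ = Real.exp (th * 2) := by
    rw [Complex.norm_exp, Complex.re_ofReal_mul, ln_re]
  have h3 : ‖ln u‖ ^ (1 / 4 : ℝ) / ‖ln u‖ ^ 2 ≤ (1 + ‖u‖ ^ 2) ^ (-(7 / 4 : ℝ) / 2) := by
    have h4 : ‖ln u‖ ^ (1 / 4 : ℝ) / ‖ln u‖ ^ 2 = ‖ln u‖ ^ (-(7 / 4 : ℝ)) := by
      have h5 : ‖ln u‖ ^ 2 = ‖ln u‖ ^ (2 : ℝ) := by
        exact_mod_cast (Real.rpow_natCast ‖ln u‖ 2).symm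
      rw [h5, ← Real.rpow_sub hw0]
      norm_num
    rw [h4, norm_ln, Real.sqrt_eq_rpow, ← Real.rpow_mul (by positivity)]
    have h5 : (1 / 2 : ℝ) * -(7 / 4) = -(7 / 4 : ℝ) / 2 := by norm_num
    rw [h5, Real.norm_eq_abs, sq_abs]
    apply Real.rpow_le_rpow_of_nonpos (by positivity)
    · linarith
    · norm_num
  unfold FF
  rw [norm_mul, h2]
  calc ‖PH th c1 c2 (ln u)‖ * Real.exp (th * 2) * ‖ln u‖ ^ (1 / 4 : ℝ)
      ≤ ((|c1| / th + 2 * |c2| / th ^ 2) / ‖ln u‖ ^ 2) * Real.exp (th * 2) *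
          ‖ln u‖ ^ (1 / 4 : ℝ) := by
        refine mul_le_mul_of_nonneg_right (mul_le_mul_of_nonneg_right h1 (Real.exp_pos _).le) ?_
        positivity
    _ = (|c1| / th + 2 * |c2| / th ^ 2) * Real.exp (th * 2) *
          (‖ln u‖ ^ (1 / 4 : ℝ) / ‖ln u‖ ^ 2) := by ring
    _ ≤ _ := mul_le_mul_of_nonneg_left h3 (by positivity)

lemma tendsto_cG : Tendsto (fun T : ℝ => T ^ (9 / 10 : ℝ) / cG T) atTop (𝓝 0) := by
  have h1 : Tendsto (fun T : ℝ => Real.log T ^ (2 / 3 : ℝ) / T ^ (1 / 10 : ℝ)) atTop (𝓝 0) :=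
    (isLittleO_log_rpow_rpow_atTop (2 / 3 : ℝ) (by norm_num : (0 : ℝ) < 1 / 10)).tendsto_div_nhds_zero
  have h2 := h1.const_mul (2 * Real.sqrt Real.pi)
  rw [mul_zero] at h2
  refine h2.congr' ?_
  filter_upwards [eventually_gt_atTop 1] with T hT
  have hT0 : 0 < T := by linarith
  have hL : 0 < Real.log T := Real.log_pos hT
  have h3 : T = T ^ (9 / 10 : ℝ) * T ^ (1 / 10 : ℝ) := by
    rw [← Real.rpow_add hT0]
    norm_num
  have hL' : 0 < Real.log T ^ (2 / 3 : ℝ) := Real.rpow_pos_of_pos hL _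
  have hs : 0 < Real.sqrt Real.pi := Real.sqrt_pos.2 Real.pi_pos
  have h9 : 0 < T ^ (9 / 10 : ℝ) := Real.rpow_pos_of_pos hT0 _
  have h10 : 0 < T ^ (1 / 10 : ℝ) := Real.rpow_pos_of_pos hT0 _
  unfold cG DD
  rw [div_div_eq_mul_div, eq_div_iff (by positivity)]
  nth_rewrite 3 [h3]
  field_simp

lemma tendsto_iff_of_sub {f g : ℝ → ℂ} {a : ℂ} (hg : Tendsto g atTop (𝓝 a))
    (h : Tendsto (fun T => f T - g T) atTop (𝓝 0)) : Tendsto f atTop (𝓝 a) := by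
  have := h.add hg
  simpa using this

/-- The limit of one term. -/
lemma key (h1 : R1Statement) (h3 : R3Statement) (hl : LimStatement) (th c1 c2 : ℝ) (hth : 0 < th)
    (hth' : th < 1 / 2) (j : ℕ) (e : Fin 3 → ℕ) (he : ∀ i, e i ≤ 1) (hej : (∑ i, e i) + j = 3) :
    Tendsto (fun T : ℝ => (Psum th c1 c2 T j (ale e th c1 c2 T) : ℂ) /
      ((cG T : ℂ) * (Real.log T : ℂ) ^ 3)) atTop (𝓝 ((-1) ^ (∑ i, e i) * XE th c1 c2 e)) := by
  obtain ⟨T1, h1⟩ := h1 th c1 c2 hth hth'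
  obtain ⟨C, T3, h3⟩ := h3 th c1 c2 hth hth' j
  obtain ⟨hlint, hlim⟩ := hl th c1 c2 hth hth' j e
  obtain ⟨M, hM0, hM⟩ := FF_bound th c1 c2 hth
  set Js : ℝ := ∫ u : ℝ, (1 + ‖u‖ ^ 2) ^ (-(7 / 4 : ℝ) / 2) with hJs
  have hint : Integrable (fun u : ℝ => (1 + ‖u‖ ^ 2) ^ (-(7 / 4 : ℝ) / 2)) :=
    integrable_rpow_neg_one_add_norm_sq (by simp; norm_num)
  have hlim' := hlim.const_mul ((-1 : ℂ) ^ (∑ i, e i))
  refine (tendsto_iff_of_sub hlim' ?_)
  -- the difference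
  have hz : Tendsto (fun T : ℝ => (2 * Real.pi)⁻¹ * (|C| * (M * Js)) * (T ^ (9 / 10 : ℝ) / cG T))
      atTop (𝓝 0) := by
    have := tendsto_cG.const_mul ((2 * Real.pi)⁻¹ * (|C| * (M * Js)))
    rwa [mul_zero] at this
  refine squeeze_zero_norm' ?_ hz
  filter_upwards [hlint, eventually_ge_atTop T1, eventually_ge_atTop T3,
    eventually_ge_atTop (Real.exp 1)] with T hTint hT1 hT3 hTe
  have hT0 : 0 < T := lt_of_lt_of_le (Real.exp_pos 1) hTe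
  have hL1 : 1 ≤ Real.log T := (Real.le_log_iff_exp_le hT0).2 hTe
  have hL0 : 0 < Real.log T := by linarith
  have hcG : 0 < cG T := by
    unfold cG DD
    have hs : 0 < Real.sqrt Real.pi := Real.sqrt_pos.2 Real.pi_pos
    positivity
  obtain ⟨hR1, hR2⟩ := h1 T hT1 j e he
  have hRb := fun u : ℝ => h3 T hT3 e he (ln u) (ln_re u)
  set n := ∑ i, e i with hn
  set R : ℝ → ℂ := fun u => av3 fun A => wA e A * RR th c1 c2 T j (sc T A) (ln u / Real.log T)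
    with hR
  set S : ℝ → ℂ := fun u => (2 * Real.pi * I)⁻¹ *
    sqI fun Z => av3 fun A => wA e A * KK th c1 c2 T j Z A (ln u) with hS
  have hF : ∀ u, PH th c1 c2 (ln u) * Complex.exp (th * ln u) = FF th c1 c2 u := fun u => rfl
  have hR1' : Integrable (fun u : ℝ => FF th c1 c2 u * R u) := hR1
  have hS1 : Integrable (fun u : ℝ => FF th c1 c2 u * S u) := hTint
  have hR2' : (Psum th c1 c2 T j (ale e th c1 c2 T) : ℂ) = (-(Real.log T : ℂ)) ^ n *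
      (((2 * Real.pi : ℝ) : ℂ)⁻¹ * ∫ u : ℝ, FF th c1 c2 u * R u) := hR2
  have hLc : (Real.log T : ℂ) ≠ 0 := by exact_mod_cast hL0.ne'
  have hcc : (cG T : ℂ) ≠ 0 := by exact_mod_cast hcG.ne'
  have e1 : (Psum th c1 c2 T j (ale e th c1 c2 T) : ℂ) / ((cG T : ℂ) * (Real.log T : ℂ) ^ 3) -
      (-1) ^ n * (((2 * Real.pi : ℝ) : ℂ)⁻¹ * ∫ u : ℝ, FF th c1 c2 u * S u) =
      (-1) ^ n * (((2 * Real.pi : ℝ) : ℂ)⁻¹ * (((cG T : ℂ) * (Real.log T : ℂ) ^ j)⁻¹ *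
        ∫ u : ℝ, FF th c1 c2 u * (R u - (cG T * Real.log T ^ j) * S u))) := by
    have e2 : (∫ u : ℝ, FF th c1 c2 u * (R u - (cG T * Real.log T ^ j) * S u)) =
        (∫ u : ℝ, FF th c1 c2 u * R u) -
          ((cG T : ℂ) * (Real.log T : ℂ) ^ j) * ∫ u : ℝ, FF th c1 c2 u * S u := by
      rw [← integral_const_mul, ← integral_sub hR1' (hS1.const_mul _)]
      refine integral_congr_ae (Filter.Eventually.of_forall fun u => ?_)
      ring
    rw [e2, hR2']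
    have e3 : (Real.log T : ℂ) ^ 3 = (Real.log T : ℂ) ^ n * (Real.log T : ℂ) ^ j := by
      rw [← pow_add, hej]
    have e4 : (-(Real.log T : ℂ)) ^ n = (-1) ^ n * (Real.log T : ℂ) ^ n := by
      rw [← mul_pow]
      congr 1
      ring
    rw [e3, e4]
    have hp : (((2 * Real.pi : ℝ) : ℂ)) ≠ 0 := by
      exact_mod_cast (by positivity : (2 * Real.pi : ℝ) ≠ 0)
    field_simp
  have e5 : ‖∫ u : ℝ, FF th c1 c2 u * (R u - (cG T * Real.log T ^ j) * S u)‖ ≤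
      |C| * T ^ (9 / 10 : ℝ) * (M * Js) := by
    have e6 := norm_integral_le_of_norm_le (hint.const_mul (|C| * T ^ (9 / 10 : ℝ) * M))
      (f := fun u : ℝ => FF th c1 c2 u * (R u - (cG T * Real.log T ^ j) * S u))
      (Filter.Eventually.of_forall fun u => by
        rw [norm_mul]
        have e7 : ‖R u - (cG T * Real.log T ^ j) * S u‖ ≤
            |C| * T ^ (9 / 10 : ℝ) * ‖ln u‖ ^ (1 / 4 : ℝ) := by
          refine (hRb u).trans ?_
          refine mul_le_mul_of_nonneg_right (mul_le_mul_of_nonneg_right (le_abs_self C) ?_) ?_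
          · positivity
          · positivity
        calc ‖FF th c1 c2 u‖ * ‖R u - (cG T * Real.log T ^ j) * S u‖
            ≤ ‖FF th c1 c2 u‖ * (|C| * T ^ (9 / 10 : ℝ) * ‖ln u‖ ^ (1 / 4 : ℝ)) :=
              mul_le_mul_of_nonneg_left e7 (norm_nonneg _)
          _ = |C| * T ^ (9 / 10 : ℝ) * (‖FF th c1 c2 u‖ * ‖ln u‖ ^ (1 / 4 : ℝ)) := by ring
          _ ≤ |C| * T ^ (9 / 10 : ℝ) * (M * (1 + ‖u‖ ^ 2) ^ (-(7 / 4 : ℝ) / 2)) :=
              mul_le_mul_of_nonneg_left (hM u) (by positivity)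
          _ = _ := by ring)
    refine e6.trans (le_of_eq ?_)
    rw [integral_const_mul]
    ring
  have e8 : (Psum th c1 c2 T j (ale e th c1 c2 T) : ℂ) / ((cG T : ℂ) * (Real.log T : ℂ) ^ 3) -
      (-1) ^ n * (((2 * Real.pi : ℝ) : ℂ)⁻¹ * ∫ u : ℝ,
        PH th c1 c2 (ln u) * Complex.exp (th * ln u) * S u) = _ := e1
  rw [e8, norm_mul, norm_pow, norm_neg, norm_one, one_pow, one_mul, norm_mul, norm_mul, norm_inv,
    norm_inv, norm_mul, norm_pow, Complex.norm_real, Complex.norm_real, Complex.norm_real,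
    Real.norm_eq_abs, Real.norm_eq_abs, Real.norm_eq_abs, abs_of_pos hcG, abs_of_pos hL0,
    abs_of_pos (by positivity : (0 : ℝ) < 2 * Real.pi)]
  have e9 : (cG T * Real.log T ^ j)⁻¹ ≤ (cG T)⁻¹ := by
    apply inv_anti₀ hcG
    exact le_mul_of_one_le_right hcG.le (one_le_pow₀ hL1)
  have hJ0 : 0 ≤ Js := integral_nonneg fun u => by positivity
  calc (2 * Real.pi)⁻¹ * ((cG T * Real.log T ^ j)⁻¹ *
        ‖∫ u : ℝ, FF th c1 c2 u * (R u - (cG T * Real.log T ^ j) * S u)‖)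
      ≤ (2 * Real.pi)⁻¹ * ((cG T)⁻¹ * (|C| * T ^ (9 / 10 : ℝ) * (M * Js))) := by
        refine mul_le_mul_of_nonneg_left ?_ (by positivity)
        exact mul_le_mul e9 e5 (norm_nonneg _) (by positivity)
    _ = _ := by
        rw [div_eq_mul_inv]
        ring

/-- ASM -/
theorem lvv (h1 : R1Statement) (h3 : R3Statement) (hl : LimStatement) (hev : EvStatement) :
    LVVStatement := by
  intro th c1 c2 hth hth'
  have k0 := key h1 h3 hl th c1 c2 hth hth' 0 ![1, 1, 1] (by intro i; fin_cases i <;> simp)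
    (by simp [Fin.sum_univ_three])
  have k1 := key h1 h3 hl th c1 c2 hth hth' 1 ![1, 1, 0] (by intro i; fin_cases i <;> simp)
    (by simp [Fin.sum_univ_three])
  have k2 := key h1 h3 hl th c1 c2 hth hth' 2 ![0, 1, 0] (by intro i; fin_cases i <;> simp)
    (by simp [Fin.sum_univ_three])
  have s0 : (∑ i, (![1, 1, 1] : Fin 3 → ℕ) i) = 3 := by simp [Fin.sum_univ_three]
  have s1 : (∑ i, (![1, 1, 0] : Fin 3 → ℕ) i) = 2 := by simp [Fin.sum_univ_three]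
  have s2 : (∑ i, (![0, 1, 0] : Fin 3 → ℕ) i) = 1 := by simp [Fin.sum_univ_three]
  rw [s0] at k0
  rw [s1] at k1
  rw [s2] at k2
  have a0 : ∀ T, ale ![1, 1, 1] th c1 c2 T = La * lg * lg * bet th c1 c2 T := fun T => by
    simp [ale]
  have a1 : ∀ T, ale ![1, 1, 0] th c1 c2 T = lg * lg * bet th c1 c2 T := fun T => by
    simp [ale]
  have a2 : ∀ T, ale ![0, 1, 0] th c1 c2 T = one * lg * bet th c1 c2 T := fun T => by
    simp [ale]
  simp only [a0] at k0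
  simp only [a1] at k1
  simp only [a2] at k2
  have k := ((k0.const_mul 2).sub (k1.const_mul 3)).add k2
  have hlimit : 2 * ((-1) ^ 3 * XE th c1 c2 ![1, 1, 1]) - 3 * ((-1) ^ 2 * XE th c1 c2 ![1, 1, 0]) +
      (-1) ^ 1 * XE th c1 c2 ![0, 1, 0] = (m2 th c1 c2 : ℂ) := by
    rw [← hev th c1 c2 hth hth']
    ring
  rw [hlimit] at k
  have kr := (Complex.continuous_re.tendsto _).comp k
  rw [Complex.ofReal_re] at kr
  refine kr.congr fun T => ?_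
  have e1 : (2 * ((Psum th c1 c2 T 0 (La * lg * lg * bet th c1 c2 T) : ℂ) /
      ((cG T : ℂ) * (Real.log T : ℂ) ^ 3)) - 3 * ((Psum th c1 c2 T 1 (lg * lg * bet th c1 c2 T) : ℂ) /
      ((cG T : ℂ) * (Real.log T : ℂ) ^ 3)) + (Psum th c1 c2 T 2 (one * lg * bet th c1 c2 T) : ℂ) /
      ((cG T : ℂ) * (Real.log T : ℂ) ^ 3)) =
      (((2 * Psum th c1 c2 T 0 (La * lg * lg * bet th c1 c2 T)
        - 3 * Psum th c1 c2 T 1 (lg * lg * bet th c1 c2 T)
        + Psum th c1 c2 T 2 (one * lg * bet th c1 c2 T)) / (cG T * Real.log T ^ 3) : ℝ) : ℂ) := by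
    push_cast
    ring
  change (2 * ((Psum th c1 c2 T 0 (La * lg * lg * bet th c1 c2 T) : ℂ) /
      ((cG T : ℂ) * (Real.log T : ℂ) ^ 3)) - 3 * ((Psum th c1 c2 T 1 (lg * lg * bet th c1 c2 T) : ℂ) /
      ((cG T : ℂ) * (Real.log T : ℂ) ^ 3)) + (Psum th c1 c2 T 2 (one * lg * bet th c1 c2 T) : ℂ) /
      ((cG T : ℂ) * (Real.log T : ℂ) ^ 3)).re = _
  rw [e1, Complex.ofReal_re]

end Pool.Agent.Lib.MP_6bc78b_nt.MS.P3.H97
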